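import Mathlib

/-! Project DS (MP_540347_an, S04695): the best constant for differentially subordinate harmonic
functions is `p^* - 1`.  Definitions and statements of the parts. -/

set_option autoImplicit false

namespace Pool.Agent.W58.DS

open MeasureTheory Set Filter Topology Polynomial

/-- the point `exp (2 pi i t)` of the unit circle -/
noncomputable def e1 (t : ℝ) : ℂ := Complex.exp (2 * Real.pi * t * Complex.I)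

/-- domination of the gradients on the closed disc: `v = Re Q` is differentially subordinate to
`u = (Re P, Re (W i))` -/
def Dom {ι : Type} [Fintype ι] (P Q : ℂ[X]) (W : ι → ℂ[X]) : Prop :=
  ∀ z : ℂ, ‖z‖ ≤ 1 → ‖(derivative Q).eval z‖ ^ 2
    ≤ ‖(derivative P).eval z‖ ^ 2 + ∑ i, ‖(derivative (W i)).eval z‖ ^ 2

/-- `|u|^2` -/
noncomputable def U2 {ι : Type} [Fintype ι] (P : ℂ[X]) (W : ι → ℂ[X]) (z : ℂ) : ℝ :=
  (P.eval z).re ^ 2 + ∑ i, ((W i).eval z).re ^ 2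

/-- `∫ |v|^p - c^p ∫ |u|^p` over the circle -/
noncomputable def JJ (p c : ℝ) {ι : Type} [Fintype ι] (P Q : ℂ[X]) (W : ι → ℂ[X]) : ℝ :=
  ∫ t in (0 : ℝ)..1, (|(Q.eval (e1 t)).re| ^ p - c ^ p * U2 P W (e1 t) ^ (p / 2))

noncomputable def VV (p c x y : ℝ) : ℝ := |y| ^ p - c ^ p * |x| ^ p

/-- the value `L` can be achieved with `u(0) = x`, `v(0) = y` -/
def Ach (p c x y L : ℝ) : Prop := ∃ (ι : Type) (_ : Fintype ι) (P Q : ℂ[X]) (W : ι → ℂ[X]),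
  P.eval 0 = (x : ℂ) ∧ Q.eval 0 = (y : ℂ) ∧ (∀ i, (W i).eval 0 = 0) ∧ Dom P Q W ∧
    L ≤ JJ p c P Q W

/-! ### the step -/

/-- the modulated polynomial, with `N = M + 2 n - 1`; on the unit circle it equals
`Re A(z) (P(z^N) - P(0))` if `K(z) = z^M Re A(z)` there -/
noncomputable def md (K : ℂ[X]) (M n : ℕ) (P : ℂ[X]) : ℂ[X] :=
  K * X ^ (2 * n - 1) * (divX P).comp (X ^ (M + 2 * n - 1))

/-- on the unit circle: real part `(1 - Re A) x + Re A Re P(z^N)` -/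
noncomputable def nP (A K : ℂ[X]) (M n : ℕ) (x : ℝ) (P : ℂ[X]) : ℂ[X] :=
  C (x : ℂ) + C (P.eval 0 - (x : ℂ)) * A + md K M n P

/-- the new auxiliary components: the old ones modulated, and `δ z^n` -/
noncomputable def nW {ι : Type} (K : ℂ[X]) (M n : ℕ) (δ : ℝ) (W : ι → ℂ[X]) : Option ι → ℂ[X] :=
  fun o => o.elim (C (δ : ℂ) * X ^ n) (fun i => md K M n (W i))

def S_GRAD : Prop := ∀ (ι : Type) [Fintype ι] (P Q : ℂ[X]) (W : ι → ℂ[X]) (A K : ℂ[X]) (M : ℕ)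
  (x y : ℝ), ‖Q.eval 0 - (y : ℂ)‖ ≤ ‖P.eval 0 - (x : ℂ)‖ → Dom P Q W →
  ∃ C0 : ℝ, 0 < C0 ∧ ∀ n : ℕ, 1 ≤ n → ∀ δ : ℝ, C0 * n ≤ δ ^ 2 * (n : ℝ) ^ 2 →
    Dom (nP A K M n x P) (nP A K M n y Q) (nW K M n δ W)

def S_LAUR : Prop := ∀ A : ℂ[X], ∃ K : ℂ[X], ∀ z : ℂ, ‖z‖ = 1 →
  K.eval z = z ^ A.natDegree * (((A.eval z).re : ℝ) : ℂ)

def S_VAL : Prop := ∀ (A K : ℂ[X]) (M n : ℕ) (P : ℂ[X]), 1 ≤ n →
  (∀ z : ℂ, ‖z‖ = 1 → K.eval z = z ^ M * (((A.eval z).re : ℝ) : ℂ)) →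
  (md K M n P).eval 0 = 0 ∧ ∀ z : ℂ, ‖z‖ = 1 →
    (md K M n P).eval z = (((A.eval z).re : ℝ) : ℂ) * (P.eval (z ^ (M + 2 * n - 1)) - P.eval 0)

/-- equidistribution of `(t, N t)` on the torus -/
def S_EQUI : Prop := ∀ F : ℝ → ℝ → ℝ, Continuous (fun q : ℝ × ℝ => F q.1 q.2) →
  (∀ t s, F (t + 1) s = F t s) → (∀ t s, F t (s + 1) = F t s) →
  Tendsto (fun N : ℕ => ∫ t in (0 : ℝ)..1, F t (N * t)) atTop
    (𝓝 (∫ t in (0 : ℝ)..1, ∫ s in (0 : ℝ)..1, F t s))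

/-- the integrand after the step; `a = Re A` -/
noncomputable def GG (p c : ℝ) {ι : Type} [Fintype ι] (P Q : ℂ[X]) (W : ι → ℂ[X])
    (x y a s : ℝ) : ℝ :=
  |(1 - a) * y + a * (Q.eval (e1 s)).re| ^ p
    - c ^ p * (((1 - a) * x + a * (P.eval (e1 s)).re) ^ 2
      + ∑ i, (a * ((W i).eval (e1 s)).re) ^ 2) ^ (p / 2)

def S_LIM : Prop := ∀ (ι : Type) [Fintype ι] (P Q : ℂ[X]) (W : ι → ℂ[X]) (A K : ℂ[X]) (M : ℕ)
  (x y p c C0 : ℝ), 1 < p → 0 ≤ c → 0 < C0 → (P.eval 0).im = 0 → (Q.eval 0).im = 0 →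
  (∀ i, (W i).eval 0 = 0) →
  (∀ z : ℂ, ‖z‖ = 1 → K.eval z = z ^ M * (((A.eval z).re : ℝ) : ℂ)) →
  Tendsto (fun n : ℕ => JJ p c (nP A K M n x P) (nP A K M n y Q)
      (nW K M n (Real.sqrt (C0 / n)) W)) atTop
    (𝓝 (∫ t in (0 : ℝ)..1, ∫ s in (0 : ℝ)..1, GG p c P Q W x y (A.eval (e1 t)).re s))

/-- real trigonometric polynomials with mean `lam` close to the indicator of `[0, lam)` -/
def S_IND : Prop := ∀ lam : ℝ, 0 < lam → lam < 1 → ∃ A : ℕ → ℂ[X],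
  (∀ j, (A j).eval 0 = (lam : ℂ)) ∧ (∀ j t, |((A j).eval (e1 t)).re| ≤ 3) ∧
  ∀ᵐ t ∂(volume.restrict (Ioc (0 : ℝ) 1)),
    Tendsto (fun j => ((A j).eval (e1 t)).re) atTop (𝓝 (if t < lam then 1 else 0))

def S_LIM2 : Prop := ∀ (ι : Type) [Fintype ι] (P Q : ℂ[X]) (W : ι → ℂ[X])
  (x y p c lam : ℝ) (A : ℕ → ℂ[X]), 1 < p → 0 ≤ c → 0 < lam → lam < 1 →
  (∀ j t, |((A j).eval (e1 t)).re| ≤ 3) →
  (∀ᵐ t ∂(volume.restrict (Ioc (0 : ℝ) 1)),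
    Tendsto (fun j => ((A j).eval (e1 t)).re) atTop (𝓝 (if t < lam then 1 else 0))) →
  Tendsto (fun j => ∫ t in (0 : ℝ)..1, ∫ s in (0 : ℝ)..1,
      GG p c P Q W x y ((A j).eval (e1 t)).re s) atTop
    (𝓝 (lam * JJ p c P Q W + (1 - lam) * VV p c x y))

def S_STEP : Prop := ∀ p c : ℝ, 1 < p → 0 ≤ c → ∀ x1 y1 L x0 y0 lam η : ℝ, Ach p c x1 y1 L →
  |y1 - y0| ≤ |x1 - x0| → 0 < lam → lam < 1 → 0 < η →
  Ach p c (lam * x1 + (1 - lam) * x0) (lam * y1 + (1 - lam) * y0)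
    (lam * L + (1 - lam) * VV p c x0 y0 - η)

/-! ### real analysis -/

def S_REAL : Prop := ∀ (p c : ℝ) (R : ℝ → ℝ → ℝ → Prop), 1 < p → 0 ≤ c →
  c < max p (p / (p - 1)) - 1 →
  (∀ x y, R x y (VV p c x y)) →
  (∀ x y L L', R x y L → L' ≤ L → R x y L') →
  (∀ x y L s, 0 < s → R x y L → R (s * x) (s * y) (s ^ p * L)) →
  (∀ x1 y1 L x0 y0 lam η : ℝ, R x1 y1 L → |y1 - y0| ≤ |x1 - x0| → 0 < lam → lam < 1 → 0 < η →
    R (lam * x1 + (1 - lam) * x0) (lam * y1 + (1 - lam) * y0)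
      (lam * L + (1 - lam) * VV p c x0 y0 - η)) →
  ∃ x y L, |y| ≤ |x| ∧ 0 < L ∧ R x y L

/-! ### harmonic majorants -/

open InnerProductSpace

def S_HARM : Prop := ∀ (F : Type) [NormedAddCommGroup F] [NormedSpace ℝ F] (f : ℂ → F)
  (l : EuclideanSpace ℝ (Fin 2) ≃ₗᵢ[ℝ] ℂ) (x : EuclideanSpace ℝ (Fin 2)),
  HarmonicAt (f ∘ l) x ↔ HarmonicAt f (l x)

def S_MAJ : Prop := ∀ (ι : Type) [Fintype ι] (P : ℂ[X]) (W : ι → ℂ[X]) (q : ℝ), 1 < q →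
  ∃ h : ℂ → ℝ, HarmonicOnNhd h (Metric.ball 0 1) ∧
    (∀ z ∈ Metric.ball (0 : ℂ) 1, U2 P W z ^ (q / 2) ≤ h z) ∧
    h 0 = ∫ t in (0 : ℝ)..1, U2 P W (e1 t) ^ (q / 2)

def S_MIN : Prop := ∀ (Q : ℂ[X]) (p : ℝ), 1 < p → ∀ g : ℂ → ℝ,
  HarmonicOnNhd g (Metric.ball 0 1) →
  (∀ z ∈ Metric.ball (0 : ℂ) 1, |(Q.eval z).re| ^ p ≤ g z) →
  ∫ t in (0 : ℝ)..1, |(Q.eval (e1 t)).re| ^ p ≤ g 0

/-- the vector valued function with the components `Re (P i)` -/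
noncomputable def vec {ι : Type} [Fintype ι] (P : ι → ℂ[X]) (z : ℂ) : EuclideanSpace ℝ ι :=
  WithLp.toLp 2 (fun i => ((P i).eval z).re)

def S_VEC : Prop := ∀ (ι : Type) [Fintype ι] [DecidableEq ι] (P : ι → ℂ[X])
  (l : EuclideanSpace ℝ (Fin 2) ≃ₗᵢ[ℝ] ℂ),
  (∀ z : ℂ, HarmonicAt (vec P) z) ∧
  (∀ x : EuclideanSpace ℝ (Fin 2), ∑ i : Fin 2,
    ‖fderiv ℝ (fun x => vec P (l x)) x (EuclideanSpace.single i (1 : ℝ))‖ ^ 2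
      = ∑ i, ‖(derivative (P i)).eval (l x)‖ ^ 2) ∧
  ∀ z : ℂ, ‖vec P z‖ ^ 2 = ∑ i, ((P i).eval z).re ^ 2

/-- the conclusion of S04695 for `p`, `c` -/
def Concl (p c : ℝ) : Prop :=
      ∃ (n : ℕ) (H : Type) (_ : NormedAddCommGroup H) (_ : InnerProductSpace ℝ H)
        (_ : CompleteSpace H)
        (D : Set (EuclideanSpace ℝ (Fin n))) (x₀ : EuclideanSpace ℝ (Fin n))
        (u v : EuclideanSpace ℝ (Fin n) → H),
        IsOpen D ∧ IsConnected D ∧ x₀ ∈ D ∧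
        InnerProductSpace.HarmonicOnNhd u D ∧ InnerProductSpace.HarmonicOnNhd v D ∧
        (∀ x ∈ D,
          ∑ i : Fin n, ‖fderiv ℝ v x (EuclideanSpace.single i (1 : ℝ))‖ ^ 2 ≤
            ∑ i : Fin n, ‖fderiv ℝ u x (EuclideanSpace.single i (1 : ℝ))‖ ^ 2) ∧
        ‖v x₀‖ ≤ ‖u x₀‖ ∧
        ∃ h : EuclideanSpace ℝ (Fin n) → ℝ,
          InnerProductSpace.HarmonicOnNhd h D ∧ (∀ x ∈ D, ‖u x‖ ^ p ≤ h x) ∧
          ∃ ε : ℝ, 0 < ε ∧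
            ∀ g : EuclideanSpace ℝ (Fin n) → ℝ,
              InnerProductSpace.HarmonicOnNhd g D →
              (∀ x ∈ D, ‖v x‖ ^ p ≤ g x) →
              c ^ p * h x₀ + ε ≤ g x₀

def S_FIN : Prop := ∀ p c x y L : ℝ, 1 < p → 0 ≤ c → |y| ≤ |x| → 0 < L → Ach p c x y L →
  Concl p c

end Pool.Agent.W58.DS
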